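import Pool.Agent.Mg.F436a94p.G7e7c8e

/- Either almost all even numbers are gaps of consecutive primes between n and 2n, or sums of two
primes between n and 2n have bounded gaps. -/

namespace Pool.Agent.Results.MP_43e117_nt.GoldbachOrPolignac

theorem result : ∃ κ C : ℝ, κ < 1 ∧ ∀ S : Set ℕ,
    (∀ a d L : ℕ, 1 ≤ d →
      ({m ∈ Set.Icc 1 L | {n ∈ S | ∃ p : ℕ, n < p ∧ p + 2 * (a + d * m) < 2 * n ∧ p.Prime ∧
          (p + 2 * (a + d * m)).Prime ∧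
          ∀ r : ℕ, p < r → r < p + 2 * (a + d * m) → ¬ r.Prime}.Finite}.ncard : ℝ) ≤
        C * (L : ℝ) ^ κ) ∨
    ∃ D n0 : ℕ, ∀ n ∈ S, n0 ≤ n → ∀ x : ℕ, 5 * n < 2 * x → x ≤ 3 * n →
      ∃ p q : ℕ, p.Prime ∧ q.Prime ∧ n < p ∧ p < 2 * n ∧ n < q ∧ q < 2 * n ∧ x ≤ p + q ∧
        p + q ≤ x + D := by
  simpa only [Pool.Agent.MP_43e117_nt.PG.Pol, Pool.Agent.MP_43e117_nt.GP.Gold, Set.not_infinite]
    using Pool.Agent.MP_43e117_nt.GP.main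

end Pool.Agent.Results.MP_43e117_nt.GoldbachOrPolignac
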