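import Pool.Agent.Mg.F436a94p.Gc25967

/- One third of the multiples of any even number are gaps of consecutive primes in (n, 2n). -/

namespace Pool.Agent.Results.MP_43e117_nt.PolignacThird

theorem result (q : ℕ) (hq : 1 ≤ q) (S : Set ℕ) (hS : S.Infinite) (ε : ℝ) (hε : 0 < ε) :
    ∃ L0 : ℕ, ∀ L : ℕ, L0 ≤ L → ∀ Y : ℕ,
      (1 / 3 - ε) * L ≤ ({m ∈ Set.Ioc Y (Y + L) |
        {n ∈ S | ∃ p : ℕ, n < p ∧ p + 2 * q * m < 2 * n ∧ p.Prime ∧ (p + 2 * q * m).Prime ∧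
          ∀ r : ℕ, p < r → r < p + 2 * q * m → ¬ r.Prime}.Infinite}.ncard : ℝ) :=
  Pool.Agent.MP_43e117_nt.PG.main q hq S hS ε hε

end Pool.Agent.Results.MP_43e117_nt.PolignacThird
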