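import Mathlib
import Pool.Agent.Mg.F43e117.Gad05b4

/- The Hardy-Littlewood twin prime asymptotic for `F[X]`, `F` finite of characteristic two. -/

set_option autoImplicit false

namespace Pool.Agent.Results.MP_43e117_nt.TwinCharTwo

open Polynomial Finset Filter Pool.Agent.MP_4fffd4_nt Pool.Agent.MP_c853c5_nt
  Pool.Agent.MP_43e117_nt
open scoped BigOperators Topology

universe u

open Classical in
theorem roots_mod {F : Type u} [Field F] {P : F[X]} (hP : P.Monic) (hi : Irreducible P)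
    (h : F[X]) : (({r : F[X] | r.degree < P.degree ∧ P ∣ r * (r + h)}.ncard : ℕ) : ℝ) =
      if P ∣ h then 1 else 2 := by
  have h0 : ∀ r : F[X], r.degree < P.degree → P ∣ r → r = 0 := fun r h1 h2 =>
    eq_zero_of_dvd_of_degree_lt h2 h1
  have h1 := degree_modByMonic_lt (-h) hP
  have h2 : P ∣ (-h) %ₘ P + h := ⟨-((-h) /ₘ P), by linear_combination modByMonic_add_div (-h) P⟩
  have e : {r : F[X] | r.degree < P.degree ∧ P ∣ r * (r + h)} = {0, (-h) %ₘ P} := by
    ext r
    simp only [Set.mem_ofPred_eq, Set.mem_insert_iff, Set.mem_singleton_iff]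
    constructor
    · rintro ⟨h3, h4⟩
      refine (hi.prime.dvd_or_dvd h4).imp (h0 r h3) fun h5 => sub_eq_zero.1 (h0 _
        ((degree_sub_le _ _).trans_lt (max_lt h3 h1)) ?_)
      simpa using dvd_sub h5 h2
    · rintro (rfl | rfl)
      · exact ⟨by rw [degree_zero]; exact bot_lt_iff_ne_bot.2 (degree_ne_bot.2 hP.ne_zero),
          by simp⟩
      · exact ⟨h1, h2.mul_left _⟩
  rw [e]
  split_ifs with h3
  · rw [h0 _ h1 ((dvd_add_left h3).1 h2)]
    simp
  · rw [Set.ncard_pair fun h4 => h3 (by simpa [← h4] using h2)]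
    simp

theorem result (F : Type u) [Field F] [Fintype F] [CharP F 2] (h : F[X]) (hh : h ≠ 0) :
    ∃ S : ℝ,
      Tendsto (fun D : ℕ => ∏ᶠ P ∈ {P : F[X] | P.Monic ∧ Irreducible P ∧ P.natDegree ≤ D},
        (1 - ({r : F[X] | r.degree < P.degree ∧ P ∣ r * (r + h)}.ncard : ℝ) /
          (Fintype.card F : ℝ) ^ P.natDegree) / (1 - 1 / (Fintype.card F : ℝ) ^ P.natDegree) ^ 2)
        atTop (𝓝 S) ∧
      Tendsto (fun n : ℕ => (n : ℝ) ^ 2 * ({f : F[X] | f.Monic ∧ f.natDegree = n ∧
        Irreducible f ∧ Irreducible (f + h)}.ncard : ℝ) / (Fintype.card F : ℝ) ^ n)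
        atTop (𝓝 S) ∧
      (2 < Fintype.card F ∨ X * (X + 1) ∣ h → 0 < S) := by
  classical
  obtain ⟨S, C, h1, h2, h3⟩ := exists_sing hh
  refine ⟨S, h1.congr fun D => ?_, (twin_tendsto hh h2).congr fun n => ?_, h3⟩
  · rw [show {P : F[X] | P.Monic ∧ Irreducible P ∧ P.natDegree ≤ D} = ↑(irrLE F D) by
      ext P; simp [mem_irrLE], finprod_mem_coe_finset, sing]
    refine Finset.prod_congr rfl fun P hP => ?_
    rw [roots_mod (mem_irrLE.1 hP).1 (mem_irrLE.1 hP).2.1, qq]
  · rw [show {f : F[X] | f.Monic ∧ f.natDegree = n ∧ Irreducible f ∧ Irreducible (f + h)} =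
      ↑((monF F n).filter fun f => Irreducible f ∧ Irreducible (f + h)) by
        ext f; simp [mem_monF, and_assoc], Set.ncard_coe_finset, Finset.card_filter, qq]
    push_cast
    congr 2
    exact Finset.sum_congr rfl fun f _ => by unfold ind; congr

end Pool.Agent.Results.MP_43e117_nt.TwinCharTwo
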